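import Pool.Agent.H44.T1.EE
import Pool.Agent.H29.NF.A
import Pool.Agent.H5.NF.GRPN

/-!
# NF: the clause for elliptic curves over global function fields of odd characteristic
-/

set_option autoImplicit false

namespace Pool.NF

open Polynomial Pool.T1 Pool.T44

/-- ELLG: the theorem for elliptic curves over the function field `K`, with the group of the
points. -/
def ELLGStmt : Prop :=
  ∀ (F : Type) [Field F] [Finite F], (2 : F) ≠ 0 → ∀ (K : Type) [Field K] [Algebra F K]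
    [Algebra.EssFiniteType F K], Algebra.trdeg F K = 1 → ∀ v : ValuationSubring K, v ≠ ⊤ →
    ∃ δ : ℝ, 0 < δ ∧ ∃ h0 : ℕ, ∀ h : ℕ, h0 ≤ h →
      (HypV v 1 h).Finite ∧ 0 < (HypV v 1 h).ncard ∧
      δ * (HypV v 1 h).ncard ≤ {f ∈ HypV v 1 h | SelK f ∧ FinOdd f}.ncard ∧
      ((3 : F) ≠ 0 →
        0 < {f ∈ HypV v 1 h | f.coeff 2 = 0}.ncard ∧
        δ * {f ∈ HypV v 1 h | f.coeff 2 = 0}.ncard ≤
          {f ∈ HypV v 1 h | f.coeff 2 = 0 ∧ SelK f ∧ FinOdd f}.ncard)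

theorem cub_eq {K : Type} [Field K] {f : K[X]} (hm : f.Monic) (hdeg : f.natDegree = 3) :
    f = X ^ 3 + C (f.coeff 2) * X ^ 2 + C (f.coeff 1) * X + C (f.coeff 0) := by
  have h3 : f.coeff 3 = 1 := by
    have := hm.coeff_natDegree
    rwa [hdeg] at this
  conv_lhs => rw [f.as_sum_range_C_mul_X_pow, hdeg]
  simp only [Finset.sum_range_succ, Finset.sum_range_zero, h3, map_one, pow_zero, pow_one]
  ring

theorem fin_odd {K : Type} [Field K] (h2 : (2 : K) ≠ 0) {f : K[X]} (hm : f.Monic)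
    (hdeg : f.natDegree = 3) (hirr : Irreducible f)
    (hfin : {p : K × K | p.2 ^ 2 = f.eval p.1}.Finite) : FinOdd f := by
  have hf := cub_eq hm hdeg
  have hset : {p : K × K | p.2 ^ 2 = f.eval p.1} =
      {p : K × K | p.2 ^ 2 = p.1 ^ 3 + f.coeff 2 * p.1 ^ 2 + f.coeff 1 * p.1 + f.coeff 0} := by
    ext p
    simp only [Set.mem_setOf_eq]
    conv_lhs => rw [hf]
    simp
  rw [hset] at hfin
  rw [hf] at hirr
  exact grpn K h2 _ _ _ hirr hfin

/-- ELLG. -/
theorem ellg (hI : IntrStmt) (hE : EFINStmt) : ELLGStmt := by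
  intro F _ _ h2 K _ _ _ htr v hv
  have h2K : (2 : K) ≠ 0 := by
    intro h
    apply h2
    apply (algebraMap F K).injective
    rw [map_ofNat, map_zero]
    exact h
  obtain ⟨δ, hδ, h0, hh⟩ := hI F h2 K htr v hv 1 le_rfl
  have key : ∀ (h : ℕ) (f : K[X]), f ∈ HypV v 1 h → SelK f → Irreducible f → FinOdd f :=
    fun h f hf hs hi =>
      fin_odd h2K hf.1 hf.2.1 hi (hE F h2 K htr v hv f hf.1 hf.2.1 hf.2.2.2 hi hs)
  refine ⟨δ, hδ, h0, fun h hle => ?_⟩
  obtain ⟨hfin, hpos, hmain, hzer⟩ := hh h hle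
  refine ⟨hfin, hpos, ?_, ?_⟩
  · refine hmain.trans ?_
    norm_cast
    apply Set.ncard_le_ncard _ (hfin.subset (Set.sep_subset _ _))
    rintro f ⟨hf, hs, hi⟩
    exact ⟨hf, hs, key h f hf hs hi⟩
  · intro h3
    obtain ⟨hp, hz⟩ := hzer (by simpa using h3)
    refine ⟨hp, hz.trans ?_⟩
    norm_cast
    apply Set.ncard_le_ncard _ (hfin.subset (Set.sep_subset _ _))
    rintro f ⟨hf, h0, hs, hi⟩
    exact ⟨hf, h0, hs, key h f hf hs hi⟩

end Pool.NF
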